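import Mathlib
import Pool.Agent.TH254.FC.Fin
import Pool.Agent.TH254.FC.Stmt

/-!
# Finite free entropy is lost under polynomials of full dimension

There is a tracial von Neumann algebra `M` generated by self-adjoint `y₁, y₂` with
`Δ_M(y₁, y₂) = 2` and `χ*(y₁, y₂)` finite, such that the pair `z = (y₁, y₁ y₂ y₁)` of self-adjoint
polynomials satisfies `Δ_M(z) = 2` and `χ*(z) = -∞`. So the implication asked for in Q2 is false.

Here `y₂` is semicircular, free from `y₁`, and `y₁` is a self-adjoint element whose distribution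
has no atoms, has finite logarithmic energy, and has `τ(log |y₁|) = -∞`.

All definitions used are those of `Pool.Agent.TH254.FC.Defs` (moments, free difference quotients,
conjugate variables, free Fisher information, `χ*` computed in a realization with a free
semicircular family, `𝒦_M` and `Δ_M`), those of `Pool.Agent.TH254.FC.Stmt`, and the pair of
polynomials `P2 = (X₁, X₁ X₂ X₁)`.
-/

set_option autoImplicit false

open scoped InnerProductSpace ENNReal

namespace Pool.Agent.Results.MP_3a1c55_an.EntropyCollapse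

open Pool.Agent.TH254.FE Pool.Agent.TH254.FN

theorem result :
    ∃ (H : Type) (_ : NormedAddCommGroup H) (_ : InnerProductSpace ℂ H) (_ : CompleteSpace H)
      (M : Set (H →L[ℂ] H)) (ξ : H) (y : Fin 2 → (H →L[ℂ] H)), Counterexample M ξ y P2 := by
  obtain ⟨H, i1, i2, i3, y, M, ξ, h1, h2, h3, h4, h5, h6, h7⟩ := main
  obtain ⟨K, j1, j2, j3, ω, Y, S, r1, r2⟩ := h5
  have c1 := h6 K ω Y S r1
  have c2 := Pool.Agent.TH254.EN.chi_fin ω Y S c1.1 c1.2
  refine ⟨H, i1, i2, i3, M, ξ, y,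
    { gen := ⟨h1.1, h1.2.1, h1.2.2.1, h1.2.2.2.1, h1.2.2.2.2⟩
      dim := ⟨h2.1, fun ι b => by rw [h2.2 ι b]; norm_num⟩
      sa := h3
      dimz := ⟨h4.1, fun ι b => by rw [h4.2 ι b]; norm_num⟩
      fin := ⟨(chiStar ω Y S).toReal, ⟨⟨K, j1, j2, j3, ω, Y, S, r1⟩, ?_⟩⟩
      inf := ⟨⟨K, j1, j2, j3, ω, _, S, r2⟩, ?_⟩ }⟩
  · intro K' _ _ _ ω' Y' S' h
    refine ⟨(h6 K' ω' Y' S' h).1, ?_⟩
    rw [EReal.coe_toReal c2.2 c2.1]
    exact (Pool.Agent.TH254.UN.chi_eq h r1).2.2
  · intro K' _ _ _ ω' Z' S' h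
    obtain ⟨a, b⟩ := h7 K' ω' Z' S' h
    exact ⟨a, Pool.Agent.TH254.EN.chi_bot ω' Z' S' b⟩

end Pool.Agent.Results.MP_3a1c55_an.EntropyCollapse
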